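import Pool.Agent.Helper194.VisProof

namespace Pool.Agent.Results.MP_af711c_co.VisCount

open Pool.Agent.Helper194.Vis

/-- For every `ε > 0` and all sufficiently large `n`, the number `numVis n` of isomorphism classes
of visibility graphs of simple polygons with `n` vertices is at least `2 ^ ((1/2 - ε) n log₂ n)`,
and this already holds when only polygons without straight angles are counted. -/
theorem result (ε : ℝ) (hε : 0 < ε) : ∀ᶠ n : ℕ in Filter.atTop,
    (2 : ℝ) ^ ((1 / 2 - ε) * n * Real.logb 2 n) ≤ numVisCorners n ∧
      numVisCorners n ≤ numVis n := by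
  filter_upwards [lower_bound ε hε] with n hn
  exact ⟨hn, corners_le n⟩

end Pool.Agent.Results.MP_af711c_co.VisCount
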